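import Pool.Agent.MP_7a5b4a_gt.Hyperbolic
import Pool.Agent.MP_7a5b4a_gt.Parabolic
import Pool.Agent.MP_7a5b4a_gt.EllMain

open scoped Real LinearAlgebra.Projectivization

namespace Pool.Agent.Results.MP_7a5b4a_gt.CircleIdentityRigidity

open Pool.Agent.MP_7a5b4a_gt

/-- Full affirmative answer to Q1.

* Parabolic type: a projective-metric plane on `ℝ²` satisfying the circle identity `(∗)` with
  `σ(r) = r` for every circle is the Euclidean plane up to an affine bijection.
* Hyperbolic type: a projective-metric plane on a proper open convex set `M` satisfying `(∗)` with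
  `σ(r) = sinh r` for every circle is a projective image of the Beltrami–Cayley–Klein model.
* Elliptic type: a projective-metric plane of elliptic type (geodesic lines of length `π`) all of
  whose circles of radius `< π/2` are strictly convex is the elliptic plane up to a projective
  map. Here `(∗)` is not even needed, so this settles the elliptic case for every reading of `(∗)`.

In the first two types the strict convexity of the circles is not needed. -/
theorem result :
    (∀ d : E2 → E2 → ℝ, IsStraightPlane Set.univ d → CircleIdentity (fun r => r) Set.univ d →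
      IsEuclideanModel d) ∧
    (∀ (M : Set E2) (d : E2 → E2 → ℝ), M ≠ Set.univ → IsStraightPlane M d →
      CircleIdentity (fun r => Real.sinh r) M d → IsHyperbolicModel M d) ∧
    (∀ d : ℙ ℝ E3 → ℙ ℝ E3 → ℝ, IsEllipticPlane d →
      (∀ (O : ℙ ℝ E3) (r : ℝ), 0 < r → r < π / 2 → IsStrictlyConvexCircle d O r) →
      IsEllipticModel d) :=
  ⟨fun _ hP hσ => par_model hP hσ, fun _ _ _ hP hσ => hyp_model hP hσ,
    fun _ hd hc => ell_model hd hc⟩

end Pool.Agent.Results.MP_7a5b4a_gt.CircleIdentityRigidity
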